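import Pool.Agent.V11241.Ent3

/-!
# A homogeneous entangled set of reals under the continuum hypothesis
-/

namespace Pool.Agent.Results.MP_919a9a_lc.HomogeneousEntangled

open Filter Topology Set Pool.Agent.V11241.Ent
open Pool.Agent.Results.MP_b9a716_gt.MooreLSpace (Om exists_W)

/-- `E` is `(κ, k)`-entangled: `|E| ≥ κ` and, for every family `F` of `κ` many `k`-tuples of
elements of `E`, where each tuple has pairwise distinct entries and distinct tuples share no
entries, and for every `t ∈ {0, 1}^k`, there are distinct `a, b ∈ F` with `a i < b i` exactly when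
`t i = 0` (`false` stands for `0`). -/
def IsKEntangled (κ : Cardinal.{0}) (k : ℕ) (E : Set ℝ) : Prop :=
  κ ≤ Cardinal.mk E ∧ ∀ F : Set (Fin k → ℝ), Cardinal.mk F = κ → (∀ a ∈ F, ∀ i, a i ∈ E) →
    (∀ a ∈ F, Function.Injective a) → (∀ a ∈ F, ∀ b ∈ F, a ≠ b → ∀ i j, a i ≠ b j) →
    ∀ t : Fin k → Bool, ∃ a ∈ F, ∃ b ∈ F, a ≠ b ∧ ∀ i, (a i < b i ↔ t i = false)

/-- `E` is entangled: it is `(ℵ₁, k)`-entangled for every `k ≥ 1`. -/
def IsEntangled (E : Set ℝ) : Prop := ∀ k : ℕ, 1 ≤ k → IsKEntangled (Cardinal.aleph 1) k E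

/-- `X` is homogeneous. -/
def IsHomogeneous (X : Type) [TopologicalSpace X] : Prop :=
  ∀ x y : X, ∃ h : X ≃ₜ X, h x = y

theorem continuous_cantorFunction : Continuous (Cardinal.cantorFunction (1 / 3)) := by
  unfold Cardinal.cantorFunction
  refine continuous_tsum (u := fun n : ℕ => (1 / 3 : ℝ) ^ n) ?_ ?_ ?_
  · intro n
    unfold Cardinal.cantorFunctionAux
    have h1 : Continuous fun f : ℕ → Bool => f n := continuous_apply n
    exact (continuous_of_discreteTopology (f := fun b : Bool => cond b ((1 / 3 : ℝ) ^ n) 0)).comp h1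
  · exact summable_geometric_of_lt_one (by norm_num) (by norm_num)
  · intro n f
    unfold Cardinal.cantorFunctionAux
    cases f n
    · simp
    · simp

/-- the embedding into the reals -/
noncomputable def Th (x : Cz) : ℝ :=
  Cardinal.cantorFunction (1 / 3) fun n => decide (phi x n = 1)

theorem continuous_Th : Continuous Th := by
  refine continuous_cantorFunction.comp (continuous_pi fun n => ?_)
  have h1 : Continuous fun x : Cz => phi x n := (continuous_apply n).comp continuous_phi
  exact (continuous_of_discreteTopology (f := fun a : ZMod 2 => decide (a = 1))).comp h1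

theorem zmod_cases (a : ZMod 2) : a = 0 ∨ a = 1 := by
  revert a
  decide

theorem Th_lt {x y : Cz} {n : ℕ} (h : ∀ m < n, x m = y m) (h0 : phi x n = 0) (h1 : phi y n = 1) :
    Th x < Th y := by
  unfold Th
  refine Cardinal.increasing_cantorFunction (by norm_num) (by norm_num) (n := n) ?_ ?_ ?_
  · intro m hm
    rw [phi_congr h m hm]
  · simp [h0]
  · simp [h1]

theorem Th_cmp {x y : Cz} {n : ℕ} (h : ∀ m < n, x m = y m) (hn : x n ≠ y n) :
    (phi x n = 0 ∧ Th x < Th y) ∨ (phi x n = 1 ∧ Th y < Th x) := by
  have h2 := phi_ne h hn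
  rcases zmod_cases (phi x n) with h3 | h3
  · rcases zmod_cases (phi y n) with h4 | h4
    · exact absurd (h3.trans h4.symm) h2
    · exact Or.inl ⟨h3, Th_lt h h3 h4⟩
  · rcases zmod_cases (phi y n) with h4 | h4
    · exact Or.inr ⟨h3, Th_lt (fun m hm => (h m hm).symm) h4 h3⟩
    · exact absurd (h3.trans h4.symm) h2

theorem Th_injective : Function.Injective Th := by
  intro x y h
  by_contra hne
  obtain ⟨n, h1, h2⟩ := exists_first hne
  rcases Th_cmp h1 h2 with h3 | h3
  · exact absurd h (ne_of_lt h3.2)
  · exact absurd h (ne_of_gt h3.2)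

variable {W : Type} [LinearOrder W] [OrderBot W] [WellFoundedLT W] [Om W]

/-- the group -/
def Gp (x : W → Cz) : AddSubgroup Cz where
  carrier := Sp x Set.univ
  add_mem' := Sp_add
  zero_mem' := Sp_zero x _
  neg_mem' := by
    intro a ha
    have : -a = a := by
      rw [neg_eq_iff_add_eq_zero]
      exact Cz_two a
    rwa [this]

theorem homogeneous_group (G : AddSubgroup Cz) : IsHomogeneous (Th '' (G : Set Cz)) := by
  have hemb : IsEmbedding Th := (continuous_Th.isClosedEmbedding Th_injective).isEmbedding
  let e : (G : Set Cz) ≃ₜ (Th '' (G : Set Cz)) := hemb.homeomorphImage G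
  intro x y
  let u : G := e.symm x
  let v : G := e.symm y
  let T₀ : G ≃ₜ G := Homeomorph.addRight (v - u)
  have h0 : T₀ u = v := by
    change u + (v - u) = v
    abel
  let T : (G : Set Cz) ≃ₜ (G : Set Cz) := T₀
  refine ⟨(e.symm.trans T).trans e, ?_⟩
  have h1 : T (e.symm x) = e.symm y := h0
  rw [Homeomorph.trans_apply, Homeomorph.trans_apply, h1, Homeomorph.apply_symm_apply]

omit [OrderBot W] [WellFoundedLT W] [Om W] in
theorem seq_injective {x : W → Cz} (hx : GSeq x) : Function.Injective x := by
  have key : ∀ α β : W, β < α → x α ≠ x β := by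
    intro α β hβ h
    obtain ⟨n, -, hn⟩ := hx.r2 α 1 Finset.univ (fun _ => {β}) (fun _ => 1) (by simpa using hβ)
      (fun i _ j _ _ => Subsingleton.elim i j) 0
    have h1 := hn 0 (Finset.mem_univ _)
    simp only [Finset.sum_singleton] at h1
    rw [h, Cz_two] at h1
    have h2 : phi 0 n = 0 := by
      unfold phi cc
      simp
    rw [h2] at h1
    exact absurd h1 (by decide)
  intro α β h
  rcases lt_trichotomy α β with h1 | h1 | h1
  · exact absurd h.symm (key _ _ h1)
  · exact h1
  · exact absurd h (key _ _ h1)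

/-- The continuum hypothesis implies that there is an entangled set of reals which is a
homogeneous space. -/
theorem result : Cardinal.continuum.{0} = Cardinal.aleph 1 →
    ∃ E : Set ℝ, IsEntangled E ∧ IsHomogeneous E := by
  intro CH
  obtain ⟨W, i1, i2, i3, i4, hW⟩ := exists_W
  have hWu : Cardinal.aleph 1 ≤ Cardinal.mk W := by
    by_contra hcon
    have h1 : (Set.univ : Set W).Countable := by
      rw [Cardinal.countable_iff_lt_aleph_one, Cardinal.mk_univ]
      exact not_le.1 hcon
    obtain ⟨b, hb⟩ := Om.bdd (Set.univ : Set W) h1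
    exact lt_irrefl _ (hb b trivial)
  have hWc : Cardinal.mk W = Cardinal.continuum := le_antisymm hW (CH ▸ hWu)
  obtain ⟨x, hx⟩ := exists_gseq hWc
  refine ⟨Th '' (Gp x : Set Cz), ?_, homogeneous_group _⟩
  intro k hk
  refine ⟨?_, ?_⟩
  · refine hWu.trans ?_
    have h1 : Function.Injective fun α : W => (⟨Th (x α), x α, Sp_x (Set.mem_univ α), rfl⟩ :
        (Th '' (Gp x : Set Cz) : Set ℝ)) := by
      intro α β h
      exact seq_injective hx (Th_injective (congrArg Subtype.val h))
    exact Cardinal.mk_le_of_injective h1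
  · intro F hFc hFE hFi hFd t
    let F' : Set (Fin k → Cz) := {u | (fun i => Th (u i)) ∈ F ∧ ∀ i, u i ∈ Sp x Set.univ}
    have himg : F ⊆ (fun (u : Fin k → Cz) i => Th (u i)) '' F' := by
      intro a ha
      choose u hu1 hu2 using hFE a ha
      have h1 : (fun i => Th (u i)) = a := funext hu2
      exact ⟨u, ⟨by rw [h1]; exact ha, hu1⟩, h1⟩
    have hunc : ¬ F'.Countable := by
      intro hc
      have h1 : F.Countable := (hc.image _).mono himg
      rw [Cardinal.countable_iff_lt_aleph_one, hFc] at h1
      exact lt_irrefl _ h1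
    obtain ⟨a, ha, b, hb, hab⟩ := comb hx F' (fun a ha => ha.2)
      (fun a ha i j hij => hFi _ ha.1 (congrArg Th hij))
      (fun a ha b hb hne i j hij => by
        refine hFd _ ha.1 _ hb.1 ?_ i j (congrArg Th hij)
        intro h
        apply hne
        funext m
        exact Th_injective (congrFun h m)) hunc (fun i => if t i then 1 else 0)
    refine ⟨_, ha.1, _, hb.1, ?_, ?_⟩
    · intro h
      obtain ⟨n, -, h2, -⟩ := hab ⟨0, hk⟩
      have h3 : a ⟨0, hk⟩ = b ⟨0, hk⟩ := Th_injective (congrFun h ⟨0, hk⟩)
      exact h2 (by rw [h3])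
    · intro i
      obtain ⟨n, h1, h2, h3⟩ := hab i
      rcases Th_cmp h1 h2 with ⟨h4, h5⟩ | ⟨h4, h5⟩
      · rw [h4] at h3
        have h6 : t i = false := by
          by_contra h7
          rw [Bool.not_eq_false] at h7
          rw [h7] at h3
          exact absurd h3 (by decide)
        exact ⟨fun _ => h6, fun _ => h5⟩
      · rw [h4] at h3
        have h6 : t i = true := by
          by_contra h7
          rw [Bool.not_eq_true] at h7
          rw [h7] at h3
          exact absurd h3 (by decide)
        constructor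
        · intro h7
          exact absurd h7 (not_lt.2 h5.le)
        · intro h7
          rw [h6] at h7
          exact absurd h7 (by decide)

end Pool.Agent.Results.MP_919a9a_lc.HomogeneousEntangled
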